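import Pool.Agent.N44.NS.Defs

/-!
# Project VW (S04498): virtual W*-superrigidity fails for property (T) groups. Definitions

For a commutative ring `A` and an additive map `f : A → A` the group `Gp A f` consists of the matrices
`[[1, x, z], [0, g, y], [0, 0, 1]]`, `g ∈ E_3(A)`, `x = (x0, x1)` two rows, `y = (y1, y2)` two columns,
`z ∈ A`, where the product `x · y` is replaced by `x0 y1 + x1 y2 + f (x0 y2)`.
-/

set_option autoImplicit false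

open scoped Matrix Polynomial

namespace Pool.Agent.N793.VW

open Pool.Agent.N44.NS (E3 el)

section grp

variable {A : Type} [CommRing A]

/-- the matrix of an element of `E_3(A)` -/
def mt (g : E3 A) : Matrix (Fin 3) (Fin 3) A := ((g : (Matrix (Fin 3) (Fin 3) A)ˣ) : Matrix _ _ A)

/-- the elementary matrices as elements of `E_3(A)` -/
def eE (i j : Fin 3) (h : i ≠ j) (a : A) : E3 A :=
  ⟨el i j h a, Subgroup.subset_closure ⟨i, j, h, a, rfl⟩⟩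

theorem mt_one : mt (1 : E3 A) = 1 := rfl

theorem mt_mul (g h : E3 A) : mt (g * h) = mt g * mt h := rfl

theorem mt_eE (i j : Fin 3) (h : i ≠ j) (a : A) : mt (eE i j h a) = 1 + Matrix.single i j a := rfl

theorem mt_inj : Function.Injective (mt : E3 A → _) :=
  fun _ _ h => Subtype.ext (Units.ext h)

theorem mt_inv_mul (g : E3 A) : mt g⁻¹ * mt g = 1 := by
  rw [← mt_mul, inv_mul_cancel, mt_one]

theorem mt_mul_inv (g : E3 A) : mt g * mt g⁻¹ = 1 := by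
  rw [← mt_mul, mul_inv_cancel, mt_one]

/-- the pairing `x0 y1 + x1 y2 + f (x0 y2)` -/
def bl (f : A →+ A) (x0 x1 y1 y2 : Fin 3 → A) : A := x0 ⬝ᵥ y1 + x1 ⬝ᵥ y2 + f (x0 ⬝ᵥ y2)

/-- The group. -/
@[ext] structure Gp (A : Type) [CommRing A] (f : A →+ A) : Type where
  g : E3 A
  x0 : Fin 3 → A
  x1 : Fin 3 → A
  y1 : Fin 3 → A
  y2 : Fin 3 → A
  z : A

variable {f : A →+ A}

instance : Mul (Gp A f) := ⟨fun p q => ⟨p.g * q.g, q.x0 + p.x0 ᵥ* mt q.g, q.x1 + p.x1 ᵥ* mt q.g,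
  p.y1 + mt p.g *ᵥ q.y1, p.y2 + mt p.g *ᵥ q.y2, p.z + q.z + bl f p.x0 p.x1 q.y1 q.y2⟩⟩

instance : One (Gp A f) := ⟨⟨1, 0, 0, 0, 0, 0⟩⟩

instance : Inv (Gp A f) := ⟨fun p => ⟨p.g⁻¹, -(p.x0 ᵥ* mt p.g⁻¹), -(p.x1 ᵥ* mt p.g⁻¹),
  -(mt p.g⁻¹ *ᵥ p.y1), -(mt p.g⁻¹ *ᵥ p.y2),
  -p.z + bl f (p.x0 ᵥ* mt p.g⁻¹) (p.x1 ᵥ* mt p.g⁻¹) p.y1 p.y2⟩⟩

theorem mul_def (p q : Gp A f) : p * q = ⟨p.g * q.g, q.x0 + p.x0 ᵥ* mt q.g, q.x1 + p.x1 ᵥ* mt q.g,
    p.y1 + mt p.g *ᵥ q.y1, p.y2 + mt p.g *ᵥ q.y2, p.z + q.z + bl f p.x0 p.x1 q.y1 q.y2⟩ := rfl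

theorem one_def : (1 : Gp A f) = ⟨1, 0, 0, 0, 0, 0⟩ := rfl

theorem inv_def (p : Gp A f) : p⁻¹ = ⟨p.g⁻¹, -(p.x0 ᵥ* mt p.g⁻¹), -(p.x1 ᵥ* mt p.g⁻¹),
    -(mt p.g⁻¹ *ᵥ p.y1), -(mt p.g⁻¹ *ᵥ p.y2),
    -p.z + bl f (p.x0 ᵥ* mt p.g⁻¹) (p.x1 ᵥ* mt p.g⁻¹) p.y1 p.y2⟩ := rfl

theorem bl_zero_left (y1 y2 : Fin 3 → A) : bl f 0 0 y1 y2 = 0 := by simp [bl]

theorem bl_zero_right (x0 x1 : Fin 3 → A) : bl f x0 x1 0 0 = 0 := by simp [bl]

theorem bl_add_left (x0 x1 x0' x1' y1 y2 : Fin 3 → A) :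
    bl f (x0 + x0') (x1 + x1') y1 y2 = bl f x0 x1 y1 y2 + bl f x0' x1' y1 y2 := by
  simp only [bl, add_dotProduct, map_add]
  abel

theorem bl_add_right (x0 x1 y1 y2 y1' y2' : Fin 3 → A) :
    bl f x0 x1 (y1 + y1') (y2 + y2') = bl f x0 x1 y1 y2 + bl f x0 x1 y1' y2' := by
  simp only [bl, dotProduct_add, map_add]
  abel

theorem bl_neg_right (x0 x1 y1 y2 : Fin 3 → A) :
    bl f x0 x1 (-y1) (-y2) = -bl f x0 x1 y1 y2 := by
  simp only [bl, dotProduct_neg, map_neg]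
  abel

theorem bl_neg_left (x0 x1 y1 y2 : Fin 3 → A) :
    bl f (-x0) (-x1) y1 y2 = -bl f x0 x1 y1 y2 := by
  simp only [bl, neg_dotProduct, map_neg]
  abel

theorem bl_mat (x0 x1 y1 y2 : Fin 3 → A) (M : Matrix (Fin 3) (Fin 3) A) :
    bl f (x0 ᵥ* M) (x1 ᵥ* M) y1 y2 = bl f x0 x1 (M *ᵥ y1) (M *ᵥ y2) := by
  simp only [bl, Matrix.dotProduct_mulVec]

instance : Group (Gp A f) where
  mul_assoc p q r := by
    simp only [mul_def]
    ext1
    · exact mul_assoc _ _ _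
    · simp only [mt_mul, Matrix.add_vecMul, Matrix.vecMul_vecMul, add_assoc]
    · simp only [mt_mul, Matrix.add_vecMul, Matrix.vecMul_vecMul, add_assoc]
    · simp only [mt_mul, Matrix.mulVec_add, Matrix.mulVec_mulVec, add_assoc]
    · simp only [mt_mul, Matrix.mulVec_add, Matrix.mulVec_mulVec, add_assoc]
    · simp only [bl_add_left, bl_add_right, bl_mat]
      abel
  one_mul p := by
    simp only [mul_def, one_def]
    ext1 <;> simp [mt_one, bl_zero_left]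
  mul_one p := by
    simp only [mul_def, one_def]
    ext1 <;> simp [mt_one, bl_zero_right]
  inv_mul_cancel p := by
    simp only [mul_def, one_def, inv_def]
    ext1
    · exact inv_mul_cancel _
    · simp only [Matrix.neg_vecMul, Matrix.vecMul_vecMul, mt_inv_mul, Matrix.vecMul_one,
        add_neg_cancel]
    · simp only [Matrix.neg_vecMul, Matrix.vecMul_vecMul, mt_inv_mul, Matrix.vecMul_one,
        add_neg_cancel]
    · exact neg_add_cancel _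
    · exact neg_add_cancel _
    · simp only [bl_neg_left]
      abel

end grp

/-- The condition of the frozen statement for property (T). -/
def Kaz (G : Type) [Group G] : Prop :=
  ∃ S : Finset G, ∃ ε : ℝ, 0 < ε ∧
    ∀ (E : Type) [NormedAddCommGroup E] [InnerProductSpace ℂ E] [CompleteSpace E]
      (π : G →* (E →L[ℂ] E)),
      (∀ g : G, π g ∈ unitary (E →L[ℂ] E)) →
      (∃ v : E, ‖v‖ = 1 ∧ ∀ s ∈ S, ‖(π s) v - v‖ < ε) →
      ∃ w : E, w ≠ 0 ∧ ∀ g : G, (π g) w = w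

/-- The group von Neumann algebra of the frozen statement: the commutant of the right regular
representation. -/
def LG (G : Type) [Group G] : Set (lp (fun _ : G => ℂ) 2 →L[ℂ] lp (fun _ : G => ℂ) 2) :=
  {T | ∀ g : G, ∀ f f' : lp (fun _ : G => ℂ) 2,
    (∀ x : G, f' x = f (x * g)) → ∀ x : G, (T f') x = (T f) (x * g)}

/-- *-isomorphism of the group von Neumann algebras, as in the frozen statement. -/
def LIso (G H : Type) [Group G] [Group H] : Prop :=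
  ∃ Φ : (lp (fun _ : G => ℂ) 2 →L[ℂ] lp (fun _ : G => ℂ) 2) →
      (lp (fun _ : H => ℂ) 2 →L[ℂ] lp (fun _ : H => ℂ) 2),
    Set.BijOn Φ (LG G) (LG H) ∧
    ∀ x ∈ LG G, ∀ y ∈ LG G,
      Φ (x + y) = Φ x + Φ y ∧ Φ (x * y) = Φ x * Φ y ∧
      Φ (star x) = star (Φ x) ∧ ∀ c : ℂ, Φ (c • x) = c • Φ x

/-- Virtual isomorphism, as in the frozen statement. -/
def VI (G H : Type) [Group G] [Group H] : Prop :=
  ∃ (F : Subgroup G) (K : Subgroup H) (_ : F.Normal) (_ : K.Normal),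
    Finite F ∧ Finite K ∧
    ∃ (G₀ : Subgroup (G ⧸ F)) (H₀ : Subgroup (H ⧸ K)),
      G₀.index ≠ 0 ∧ H₀.index ≠ 0 ∧ Nonempty (G₀ ≃* H₀)

/-- `f` is the Cartier operator `∑ c_i t^i ↦ ∑ (c_{2j+1})^{1/2} t^j`. -/
def IsCar {K : Type} [Field K] (f : K[X] →+ K[X]) : Prop :=
  ∀ (r : K[X]) (j : ℕ), ((f r).coeff j) ^ 2 = r.coeff (2 * j + 1)

/-- *-isomorphism of the complex group algebras which preserves the trace. -/
def AIso (G H : Type) [Group G] [Group H] : Prop :=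
  ∃ θ : MonoidAlgebra ℂ G ≃ₐ[ℂ] MonoidAlgebra ℂ H,
    (∀ u, (θ u).coeff 1 = u.coeff 1) ∧
    ∀ (g : G) (h : H), (θ (MonoidAlgebra.single g⁻¹ 1)).coeff h =
      (starRingEnd ℂ) ((θ (MonoidAlgebra.single g 1)).coeff h⁻¹)

/-- The data which gives an isomorphism of the group algebras of `Gp R 0` and `Gp R f`: the ring `𝕂` is
the sum of its subring `R` and the (non-unital) subring `D`, which is dual to `R` by `res`, and `f` is
adjoint to the squaring map of `D`. Example: `R = K[t]`, `𝕂 = K((1/t))`. -/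
structure Fl {R 𝕂 : Type} [CommRing R] [CommRing 𝕂] (ι : R →+* 𝕂) (D : AddSubgroup 𝕂)
    (fl : 𝕂 →+ R) (res : 𝕂 →+ ZMod 2) (f : R →+ R) : Prop where
  two : ∀ k : 𝕂, k + k = 0
  twoR : ∀ r : R, r + r = 0
  fl_ι : ∀ r, fl (ι r) = r
  fl_D : ∀ d ∈ D, fl d = 0
  sub_fl : ∀ k, k - ι (fl k) ∈ D
  mulD : ∀ d ∈ D, ∀ e ∈ D, d * e ∈ D
  res_ι : ∀ r, res (ι r) = 0
  nondeg : ∀ r : R, r ≠ 0 → ∃ d ∈ D, res (d * ι r) ≠ 0
  sq : ∀ d ∈ D, ∀ r, res (d * d * ι r) = res (d * ι (f r))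
  fin1 : ∀ r, ∃ S : Finset R, ∀ d ∈ D, (∀ s ∈ S, res (d * ι s) = 0) → fl (d * ι r) = 0
  fin2 : ∀ r, ∃ S : Finset R, ∀ d ∈ D, (∀ s ∈ S, res (d * ι s) = 0) →
    ∀ e ∈ D, res (d * e * ι r) = 0

section cor

variable {A : Type} [CommRing A]

/-- Four vectors: the rows `w 0`, `w 1` and the columns `w 2`, `w 3`. -/
abbrev W (A : Type) := Fin 4 → Fin 3 → A

/-- the element `(1, x, y, z)` of the group with `w = (x0, x1, y1, y2)` -/
def up (f : A →+ A) (w : W A) (z : A) : Gp A f := ⟨1, w 0, w 1, w 2, w 3, z⟩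

/-- the action of `E_3(A)` on `W A` (conjugation) -/
def act (g : E3 A) (w : W A) : W A :=
  ![w 0 ᵥ* mt g⁻¹, w 1 ᵥ* mt g⁻¹, mt g *ᵥ w 2, mt g *ᵥ w 3]

/-- the commutator of `up f w z` and `up f v z'` in characteristic two -/
def bt (f : A →+ A) (w v : W A) : A :=
  bl f (w 0) (w 1) (v 2) (v 3) + bl f (v 0) (v 1) (w 2) (w 3)

/-- a vector with one nonzero coordinate -/
def sg (i : Fin 4) (k : Fin 3) (r : A) : W A := Pi.single i (Pi.single k r)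

/-- What a virtual isomorphism between `Gp A 0` and `Gp A f` gives: `Ra` is the graph of the isomorphism
between finite index subgroups of `W A`, `Rz` the correspondence of the centres, `Rg` the correspondence
of the elements of `E_3(A)`. -/
structure CD (f : A →+ A) (Ra : AddSubgroup (W A × W A)) (Rz : AddSubgroup (A × A))
    (Rg : Set (E3 A × E3 A)) (I : AddSubgroup A) : Prop where
  fin : I.index ≠ 0
  inj : ∀ w, (w, 0) ∈ Ra → w = 0
  inj' : ∀ w, (0, w) ∈ Ra → w = 0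
  dom : ∀ i k, ∀ r ∈ I, ∃ w, (sg i k r, w) ∈ Ra
  dom' : ∀ i k, ∀ r ∈ I, ∃ w, (w, sg i k r) ∈ Ra
  zf : {r | (r, 0) ∈ Rz}.Finite
  zf' : {r | (0, r) ∈ Rz}.Finite
  gd : ∀ (i j : Fin 3) (h : i ≠ j), ∀ r ∈ I, ∃ g, (eE i j h r, g) ∈ Rg
  gd' : ∀ (i j : Fin 3) (h : i ≠ j), ∀ r ∈ I, ∃ g, (g, eE i j h r) ∈ Rg
  act : ∀ g g' w w', (g, g') ∈ Rg → (w, w') ∈ Ra → (act g w, act g' w') ∈ Ra
  bt : ∀ w w' v v', (w, w') ∈ Ra → (v, v') ∈ Ra → (bt 0 w v, bt f w' v') ∈ Rz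

end cor

end Pool.Agent.N793.VW
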