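import Pool.Agent.N793.VW.Stm

/-!
# Project VW (S04498): assembly
-/

set_option autoImplicit false

open scoped Matrix Polynomial

namespace Pool.Agent.N793.VW

open Pool.Agent.N44.NS (E3 el)

section cnt

variable {A : Type} [CommRing A] [Countable A] {f : A →+ A}

instance countable_mat : Countable (Matrix (Fin 3) (Fin 3) A) :=
  inferInstanceAs (Countable (Fin 3 → Fin 3 → A))

instance countable_E3 : Countable (E3 A) := by
  haveI : Countable (Matrix (Fin 3) (Fin 3) A)ˣ :=
    Function.Injective.countable (f := Units.val) Units.val_injective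
  infer_instance

instance countable_Gp : Countable (Gp A f) := by
  refine Function.Injective.countable (f := fun p : Gp A f => (p.g, p.x0, p.x1, p.y1, p.y2, p.z)) ?_
  intro p q h
  simp only [Prod.mk.injEq] at h
  obtain ⟨h1, h2, h3, h4, h5, h6⟩ := h
  exact Gp.ext h1 h2 h3 h4 h5 h6

theorem countable_poly (K : Type) [Field K] [Countable K] : Countable K[X] := by
  refine Function.Injective.countable (f := fun p : K[X] => p.toFinsupp.coeff) ?_
  intro p q h
  exact Polynomial.toFinsupp_injective (AddMonoidAlgebra.coeff_injective h)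

end cnt

theorem glue (hT : S_T) (hL : S_L) (hA : S_A) (hF : S_F) (hC1 : S_C1) (hC2 : S_C2) :
    ∃ (G H : Type) (_ : Group G) (_ : Countable G) (_ : Group H) (_ : Countable H),
      Kaz G ∧ LIso G H ∧ ¬ VI G H := by
  let K := GaloisField 2 8
  let _ : Fintype K := Fintype.ofFinite K
  have hc : 256 ≤ Fintype.card K := by
    rw [← Nat.card_eq_fintype_card, GaloisField.card 2 8 (by norm_num)]
    norm_num
  obtain ⟨𝕂, _, ι, D, fl, res, f, hcar, hfl⟩ := hF K
  have hcp : Countable K[X] := countable_poly K
  refine ⟨Gp K[X] 0, Gp K[X] f, inferInstance, inferInstance, inferInstance, inferInstance,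
    hT K hc, hL _ _ (hA _ _ ι D fl res f hfl), ?_⟩
  intro hv
  obtain ⟨Ra, Rz, Rg, I, h⟩ := hC1 K[X] f hv
  exact hC2 K f hcar Ra Rz Rg I h

end Pool.Agent.N793.VW
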