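import Pool.Agent.N793.VW.Defs

/-!
# Project VW (S04498): statements of the leaves
-/

set_option autoImplicit false

open scoped Matrix Polynomial

namespace Pool.Agent.N793.VW

open Pool.Agent.N44.NS (E3 el)

/-- T: property (T) of `Gp K[t] 0`, `K` a finite field of characteristic two with at least 256
elements. Use `Pool.Agent.Helper278.TB.propT_lines` with the eight lines `e_12(c)`, `e_23(c)`,
`e_31(c)`, `e_31(c t)`, `x0 = c e_1`, `x1 = c e_1`, `y1 = c e_1`, `y2 = c e_1`. -/
def S_T : Prop :=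
  ∀ (K : Type) [Field K] [Fintype K] [CharP K 2], 256 ≤ Fintype.card K → Kaz (Gp K[X] 0)

/-- L: a trace preserving *-isomorphism of the group algebras gives a *-isomorphism of the group von
Neumann algebras. -/
def S_L : Prop := ∀ (G H : Type) [Group G] [Group H], AIso G H → LIso G H

/-- A: the isomorphism of the group algebras from the abstract data. -/
def S_A : Prop :=
  ∀ (R 𝕂 : Type) [CommRing R] [CommRing 𝕂] (ι : R →+* 𝕂) (D : AddSubgroup 𝕂) (fl : 𝕂 →+ R)
    (res : 𝕂 →+ ZMod 2) (f : R →+ R), Fl ι D fl res f → AIso (Gp R 0) (Gp R f)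

/-- F: the data for `R = K[t]`, `𝕂 = K((1/t))`, `D` the series without constant and polynomial part,
`res = Tr` of the coefficient of `1/t`, `f` the Cartier operator. -/
def S_F : Prop :=
  ∀ (K : Type) [Field K] [Finite K] [CharP K 2],
    ∃ (𝕂 : Type) (_ : CommRing 𝕂) (ι : K[X] →+* 𝕂) (D : AddSubgroup 𝕂) (fl : 𝕂 →+ K[X])
      (res : 𝕂 →+ ZMod 2) (f : K[X] →+ K[X]), IsCar f ∧ Fl ι D fl res f

/-- C1: a virtual isomorphism of `Gp R 0` and `Gp R f` gives the correspondences `CD`
(`R` an infinite domain of characteristic two, `f` arbitrary). -/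
def S_C1 : Prop :=
  ∀ (R : Type) [CommRing R] [IsDomain R] [Infinite R] [CharP R 2] (f : R →+ R),
    VI (Gp R 0) (Gp R f) → ∃ Ra Rz Rg I, CD f Ra Rz Rg I

/-- C2: there are no such correspondences if `f` is the Cartier operator. -/
def S_C2 : Prop :=
  ∀ (K : Type) [Field K] [Finite K] [CharP K 2] (f : K[X] →+ K[X]), IsCar f →
    ∀ Ra Rz Rg I, ¬ CD f Ra Rz Rg I

end Pool.Agent.N793.VW
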